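import Pool.Agent.H947R2.TP.Stubs

/-!
# P3: the packing criterion
-/

open MeasureTheory Filter Topology Set
open scoped ENNReal

namespace H947TP

namespace P3aux

variable {D n : ℕ} {b : Fin D → Fin n} {δ ε : ℝ}

theorem Nk_conv {k : Fin D} (hc : ConvexOn ℝ univ (Phi b δ k)) (hε : 0 < ε) {a c : ℝ}
    (ha : 0 ≤ a) (hc' : 0 ≤ c) (hac : a + c = 1) (x y : Fin D → ℝ) :
    Nk b δ ε k (a • x + c • y) ≤ a * Nk b δ ε k x + c * Nk b δ ε k y := by
  unfold Nk
  have h1 : |(a • x + c • y) k| ≤ a * |x k| + c * |y k| := by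
    simp only [Pi.add_apply, Pi.smul_apply, smul_eq_mul]
    calc |a * x k + c * y k| ≤ |a * x k| + |c * y k| := abs_add_le _ _
      _ = a * |x k| + c * |y k| := by rw [abs_mul, abs_mul, abs_of_nonneg ha, abs_of_nonneg hc']
  have h2 := hc.2 (mem_univ x) (mem_univ y) ha hc' hac
  simp only [smul_eq_mul] at h2
  nlinarith

theorem Nk_even {k : Fin D} (he : ∀ w, Phi b δ k (-w) = Phi b δ k w) (w : Fin D → ℝ) :
    Nk b δ ε k (-w) = Nk b δ ε k w := by
  unfold Nk
  rw [he, Pi.neg_apply, abs_neg]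

theorem Nk_zero {k : Fin D} (h0 : Phi b δ k 0 = 0) : Nk b δ ε k 0 = 0 := by
  unfold Nk
  rw [h0]; simp

theorem Nk_cont {k : Fin D} (hc : Continuous (Phi b δ k)) : Continuous (Nk b δ ε k) := by
  unfold Nk
  exact ((continuous_apply k).abs).add (continuous_const.mul hc)

theorem two_mul_eq (x : Fin D → ℝ) : (fun i => 2 * x i) = (2 : ℝ) • x := by
  funext i
  simp

theorem interior_body (hP1 : St_P1) (hδ : 0 < δ) (hδ1 : δ ≤ 1) (hε : 0 < ε) (hD : 2 ≤ D)
    (hn : 2 ≤ n) : interior (body b δ ε) = {x | ∀ k, Nk b δ ε k ((2 : ℝ) • x) < 1} := by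
  apply Subset.antisymm
  · intro y hy k
    obtain ⟨-, -, -, h0, -, hconv, -⟩ := hP1 D n b δ k hδ hδ1 hD hn
    have hy' := mem_interior_iff_mem_nhds.mp hy
    have ht : Tendsto (fun t : ℝ => (1 + t) • y) (𝓝 0) (𝓝 y) := by
      have : Continuous (fun t : ℝ => (1 + t) • y) := by fun_prop
      have h := this.tendsto 0
      simpa using h
    have hev := ht.eventually hy'
    have hev2 : ∀ᶠ t in 𝓝[>] (0 : ℝ), (1 + t) • y ∈ body b δ ε ∧ 0 < t := by
      refine (hev.filter_mono nhdsWithin_le_nhds).and ?_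
      exact self_mem_nhdsWithin
    obtain ⟨t, ht1, ht0⟩ := hev2.exists
    have hk := ht1 k
    rw [two_mul_eq] at hk
    have hpos : 0 < 1 + t := by linarith
    have heq : (2 : ℝ) • y = (1 / (1 + t)) • ((2 : ℝ) • ((1 + t) • y)) + (t / (1 + t)) • 0 := by
      rw [smul_zero, add_zero, smul_smul, smul_smul]
      congr 1
      field_simp
    have hle := Nk_conv (ε := ε) hconv hε (a := 1 / (1 + t)) (c := t / (1 + t)) (by positivity)
      (by positivity) (by field_simp) ((2 : ℝ) • ((1 + t) • y)) 0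
    rw [← heq, Nk_zero h0, mul_zero, add_zero] at hle
    have hlt : 1 / (1 + t) < 1 := by
      rw [div_lt_one hpos]; linarith
    have hnn : 1 / (1 + t) * Nk b δ ε k ((2 : ℝ) • ((1 + t) • y)) ≤ 1 / (1 + t) * 1 :=
      mul_le_mul_of_nonneg_left hk (by positivity)
    linarith
  · apply interior_maximal
    · intro x hx k
      rw [two_mul_eq]
      exact (hx k).le
    · have : {x : Fin D → ℝ | ∀ k, Nk b δ ε k ((2 : ℝ) • x) < 1}
          = ⋂ k, {x : Fin D → ℝ | Nk b δ ε k ((2 : ℝ) • x) < 1} := by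
        ext x; simp
      rw [this]
      apply isOpen_iInter_of_finite
      intro k
      obtain ⟨-, -, -, -, hcont, -⟩ := hP1 D n b δ k hδ hδ1 hD hn
      have h2 : Continuous (fun x : Fin D → ℝ => (2 : ℝ) • x) := continuous_const_smul 2
      exact isOpen_lt ((Nk_cont hcont).comp h2) continuous_const

theorem mem_interior_tr {d : ℕ} (x z : Fin d → ℝ) (K : Set (Fin d → ℝ)) :
    z ∈ interior (tr x K) ↔ z - x ∈ interior K := by
  have h : tr x K = (Homeomorph.addLeft x) '' K := rfl
  rw [h, ← (Homeomorph.addLeft x).image_interior]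
  constructor
  · rintro ⟨w, hw, rfl⟩
    simpa using hw
  · intro hz
    exact ⟨z - x, hz, by simp⟩

end P3aux

open P3aux in
theorem P3 (hP1 : St_P1) : St_P3 := by
  intro D n b δ ε hδ hδ1 hε hD hn X
  have hint := interior_body (b := b) hP1 hδ hδ1 hε hD hn
  have hev : ∀ k w, Nk b δ ε k (-w) = Nk b δ ε k w := by
    intro k w
    obtain ⟨-, -, he, -⟩ := hP1 D n b δ k hδ hδ1 hD hn
    exact Nk_even he w
  constructor
  · intro hpack x hx y hy hxy
    by_contra hsep
    unfold Sep at hsep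
    push Not at hsep
    have hd := hpack x hx y hy hxy
    rw [Set.disjoint_left] at hd
    refine hd (a := (1 / 2 : ℝ) • (x + y)) ?_ ?_
    · rw [mem_interior_tr, hint]
      intro k
      have : (2 : ℝ) • ((1 / 2 : ℝ) • (x + y) - x) = -(x - y) := by
        funext i
        simp only [Pi.smul_apply, Pi.sub_apply, Pi.add_apply, Pi.neg_apply, smul_eq_mul]
        ring
      rw [this, hev]
      exact hsep k
    · rw [mem_interior_tr, hint]
      intro k
      have : (2 : ℝ) • ((1 / 2 : ℝ) • (x + y) - y) = x - y := by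
        funext i
        simp only [Pi.smul_apply, Pi.sub_apply, Pi.add_apply, smul_eq_mul]
        ring
      rw [this]
      exact hsep k
  · intro hall x hx y hy hxy
    rw [Set.disjoint_left]
    intro z hzx hzy
    rw [mem_interior_tr, hint] at hzx hzy
    obtain ⟨k, hk⟩ := hall x hx y hy hxy
    obtain ⟨-, -, -, -, -, hconv, -⟩ := hP1 D n b δ k hδ hδ1 hD hn
    have heq : x - y = (1 / 2 : ℝ) • ((2 : ℝ) • (z - y)) + (1 / 2 : ℝ) • (-((2 : ℝ) • (z - x))) := by
      funext i
      simp only [Pi.smul_apply, Pi.sub_apply, Pi.add_apply, Pi.neg_apply, smul_eq_mul]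
      ring
    have hle := Nk_conv (ε := ε) hconv hε (a := 1 / 2) (c := 1 / 2) (by norm_num) (by norm_num)
      (by norm_num) ((2 : ℝ) • (z - y)) (-((2 : ℝ) • (z - x)))
    rw [← heq, hev] at hle
    have h1 := hzx k
    have h2 := hzy k
    linarith

end H947TP
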